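import Pool.Agent.Results.MP_88afc7_mp.SeventhPower

/-!
# The Thomas-Fermi molecular energy minus the atomic energies is not superadditive

The energy difference scales as `f(t³ z; R) = t⁷ f(z; t R)`, and `f(z; l R)` is exactly of order
`l⁻⁷`. Hence along every ray `t ↦ f(t z; R)` stays between two positive constants, while
superadditivity would force it to grow at least linearly.
-/

set_option autoImplicit false

open MeasureTheory Set Filter Topology Metric
open scoped Pointwise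

namespace Pool.Agent.Results.MP_f156ce_mp.FullAnswer

/-- Three dimensional Euclidean space. -/
abbrev R3 := EuclideanSpace ℝ (Fin 3)

/-- `ρ ≥ 0` and `ρ ∈ L¹ ∩ L^{5/3}`. -/
structure Density (ρ : R3 → ℝ) : Prop where
  nonneg : ∀ x, 0 ≤ ρ x
  integrable : Integrable ρ
  integrable_rpow : Integrable (fun x => ρ x ^ (5/3 : ℝ))

/-- The nuclear potential `V(x) = ∑ z_j / |x - R_j|`. -/
noncomputable def V {k : ℕ} (R : Fin k → R3) (z : Fin k → ℝ) (x : R3) : ℝ :=
  ∑ j, z j / ‖x - R j‖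

/-- The nuclear repulsion `U = ∑_{i<j} z_i z_j / |R_i - R_j|`. -/
noncomputable def U {k : ℕ} (R : Fin k → R3) (z : Fin k → ℝ) : ℝ :=
  ∑ i, ∑ j ∈ Finset.univ.filter (fun j => i < j), z i * z j / ‖R i - R j‖

/-- The Thomas-Fermi functional. -/
noncomputable def xi {k : ℕ} (R : Fin k → R3) (z : Fin k → ℝ) (ρ : R3 → ℝ) : ℝ :=
  3/5 * (∫ x, ρ x ^ (5/3 : ℝ)) - (∫ x, V R z x * ρ x) +
    1/2 * (∫ x, ∫ y, ρ x * ρ y / ‖x - y‖) + U R z

/-- The energies of the densities with total charge `∑ z_j`. -/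
def energies {k : ℕ} (R : Fin k → R3) (z : Fin k → ℝ) : Set ℝ :=
  {s | ∃ ρ : R3 → ℝ, Density ρ ∧ ∫ x, ρ x = ∑ j, z j ∧ xi R z ρ = s}

/-- The neutral Thomas-Fermi energy `e(z)` of the nuclei of charges `z_j` at `R_j`. -/
noncomputable def e {k : ℕ} (R : Fin k → R3) (z : Fin k → ℝ) : ℝ := sInf (energies R z)

/-- The neutral energy `e^{at}(z)` of one nucleus of charge `z` (at the origin). -/
noncomputable def eat (z : ℝ) : ℝ := e (fun _ : Fin 1 => (0 : R3)) (fun _ => z)

/-- The function `e - ẽ`. -/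
noncomputable def f {k : ℕ} (R : Fin k → R3) (z : Fin k → ℝ) : ℝ := e R z - ∑ j, eat (z j)

/-- Superadditivity on `ℝ₊ᵏ`. -/
def Superadditive {k : ℕ} (F : (Fin k → ℝ) → ℝ) : Prop :=
  ∀ z₁ z₂ : Fin k → ℝ, (∀ i, 0 ≤ z₁ i) → (∀ i, 0 ≤ z₂ i) → F z₁ + F z₂ ≤ F (z₁ + z₂)

/-! ### Comparison with the seventh power law -/

open Pool.Agent.Results.MP_88afc7_mp.SeventhPower (tf E Molecule combZ combR deltaE)

lemma density_iff {ρ : R3 → ℝ} :
    Density ρ ↔ Pool.Agent.Results.MP_88afc7_mp.SeventhPower.Density ρ :=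
  ⟨fun h => ⟨h.nonneg, h.integrable, h.integrable_rpow⟩,
    fun h => ⟨h.nonneg, h.integrable, h.integrable_rpow⟩⟩

/-- the repulsion as one half of the sum over all pairs (the diagonal vanishes) -/
noncomputable def rep {ι : Type} [Fintype ι] (z : ι → ℝ) (R : ι → R3) : ℝ :=
  1/2 * ∑ i, ∑ j, z i * z j / ‖R i - R j‖

lemma rep_eq {ι : Type} [Fintype ι] [DecidableEq ι] (z : ι → ℝ) (R : ι → R3) :
    1/2 * ∑ i, ∑ j ∈ Finset.univ.erase i, z i * z j / ‖R i - R j‖ = rep z R := by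
  unfold rep
  congr 1
  refine Finset.sum_congr rfl fun i _ => ?_
  rw [← Finset.add_sum_erase _ _ (Finset.mem_univ i)]
  simp

lemma tf_eq {ι : Type} [Fintype ι] [DecidableEq ι] (z : ι → ℝ) (R : ι → R3) (ρ : R3 → ℝ) :
    tf 1 z R ρ = 3/5 * (∫ x, ρ x ^ (5/3 : ℝ)) - (∫ x, (∑ j, z j / ‖x - R j‖) * ρ x) +
      1/2 * (∫ x, ∫ y, ρ x * ρ y / ‖x - y‖) + rep z R := by
  unfold tf
  rw [rep_eq, mul_one]

lemma U_eq {k : ℕ} (R : Fin k → R3) (z : Fin k → ℝ) : U R z = rep z R := by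
  have h1 : ∀ i j : Fin k, z i * z j / ‖R i - R j‖ =
      (if i < j then z i * z j / ‖R i - R j‖ else 0) +
        (if j < i then z j * z i / ‖R j - R i‖ else 0) := by
    intro i j
    rcases lt_trichotomy i j with h | h | h
    · rw [if_pos h, if_neg h.not_gt, add_zero]
    · subst h; simp
    · rw [if_neg h.not_gt, if_pos h, zero_add, norm_sub_rev, mul_comm]
  have h2 : ∑ i, ∑ j, z i * z j / ‖R i - R j‖ = U R z + U R z := by
    rw [Finset.sum_congr rfl fun i _ => Finset.sum_congr rfl fun j _ => h1 i j]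
    rw [Finset.sum_congr rfl fun i _ => Finset.sum_add_distrib, Finset.sum_add_distrib]
    have h3 : ∑ i, ∑ j, (if i < j then z i * z j / ‖R i - R j‖ else 0) = U R z := by
      unfold U
      exact Finset.sum_congr rfl fun i _ => (Finset.sum_filter _ _).symm
    congr 1
    rw [Finset.sum_comm]
    exact h3
  unfold rep
  rw [h2]; ring

lemma xi_eq {k : ℕ} (R : Fin k → R3) (z : Fin k → ℝ) (ρ : R3 → ℝ) : xi R z ρ = tf 1 z R ρ := by
  rw [tf_eq, ← U_eq]
  rfl

lemma energies_eq {k : ℕ} (R : Fin k → R3) (z : Fin k → ℝ) :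
    energies R z = Pool.Agent.Results.MP_88afc7_mp.SeventhPower.energies 1 z R := by
  ext s
  constructor
  · rintro ⟨ρ, h1, h2, h3⟩
    exact ⟨ρ, density_iff.1 h1, h2, by rw [← xi_eq]; exact h3⟩
  · rintro ⟨ρ, h1, h2, h3⟩
    exact ⟨ρ, density_iff.2 h1, h2, by rw [xi_eq]; exact h3⟩

lemma e_eq {k : ℕ} (R : Fin k → R3) (z : Fin k → ℝ) : e R z = E 1 z R := by
  unfold e E
  rw [energies_eq]

/-- nuclei of charge zero may be dropped, and the nuclei may be renamed -/
lemma E_emb {ι ι' : Type} [Fintype ι] [DecidableEq ι] [Fintype ι'] [DecidableEq ι']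
    (g : ι' → ι) (hg : Function.Injective g) (z : ι → ℝ) (R : ι → R3)
    (hz : ∀ i, i ∉ Set.range g → z i = 0) : E 1 (z ∘ g) (R ∘ g) = E 1 z R := by
  have hs : ∀ F : ι → ℝ, ∑ i, z (g i) * F (g i) = ∑ i, z i * F i := fun F =>
    Fintype.sum_of_injective g hg _ _ (fun i hi => by rw [hz i hi, zero_mul]) (fun i => rfl)
  have hV : ∀ x, ∑ j, (z ∘ g) j / ‖x - (R ∘ g) j‖ = ∑ j, z j / ‖x - R j‖ := by
    intro x
    have := hs (fun j => (‖x - R j‖)⁻¹)
    simpa only [div_eq_mul_inv, Function.comp] using this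
  have hU : rep (z ∘ g) (R ∘ g) = rep z R := by
    unfold rep
    congr 1
    have h1 : ∀ i, ∑ j, z i * z j / ‖R i - R j‖ = z i * ∑ j, z j * (‖R i - R j‖)⁻¹ := by
      intro i
      rw [Finset.mul_sum]
      exact Finset.sum_congr rfl fun j _ => by rw [div_eq_mul_inv, mul_assoc]
    have h2 : ∀ i, ∑ j, (z ∘ g) i * (z ∘ g) j / ‖(R ∘ g) i - (R ∘ g) j‖ =
        z (g i) * ∑ j, z j * (‖R (g i) - R j‖)⁻¹ := by
      intro i
      rw [← hs (fun j => (‖R (g i) - R j‖)⁻¹), Finset.mul_sum]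
      exact Finset.sum_congr rfl fun j _ => by
        simp only [Function.comp]; rw [div_eq_mul_inv, mul_assoc]
    rw [Finset.sum_congr rfl fun i _ => h1 i, Finset.sum_congr rfl fun i _ => h2 i]
    exact hs (fun i => ∑ j, z j * (‖R i - R j‖)⁻¹)
  have hm : ∑ j, (z ∘ g) j = ∑ j, z j := by
    have := hs (fun _ => 1)
    simpa only [mul_one, Function.comp] using this
  unfold E Pool.Agent.Results.MP_88afc7_mp.SeventhPower.energies
  congr 1
  ext s
  simp only [Set.mem_ofPred_eq]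
  refine exists_congr fun ρ => ?_
  rw [hm, tf_eq, tf_eq, hU]
  simp only [hV]

/-! ### Scaling -/

lemma int_scale (t : ℝ) (ht : 0 < t) (G : R3 → ℝ) : ∫ x, G (t • x) = (t ^ 3)⁻¹ * ∫ x, G x := by
  rw [Measure.integral_comp_smul]
  simp [abs_of_pos ht]

lemma tf_scale {ι : Type} [Fintype ι] [DecidableEq ι] (z : ι → ℝ) (R : ι → R3) {t : ℝ}
    (ht : 0 < t) {ρ : R3 → ℝ} (hρ : ∀ x, 0 ≤ ρ x) :
    tf 1 (fun i => t ^ 3 * z i) R (fun x => t ^ 6 * ρ (t • x)) =
      t ^ 7 * tf 1 z (fun i => t • R i) ρ := by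
  have ht0 : t ≠ 0 := ht.ne'
  have hpow : ((t ^ 6 : ℝ)) ^ (5/3 : ℝ) = t ^ 10 := by
    rw [← Real.rpow_natCast, ← Real.rpow_mul ht.le, ← Real.rpow_natCast]
    norm_num
  have hK : (∫ x, (t ^ 6 * ρ (t • x)) ^ (5/3 : ℝ)) = t ^ 7 * ∫ x, ρ x ^ (5/3 : ℝ) := by
    have h1 : ∀ x : R3, (t ^ 6 * ρ (t • x)) ^ (5/3 : ℝ) = t ^ 10 * (ρ (t • x) ^ (5/3 : ℝ)) := by
      intro x
      rw [Real.mul_rpow (by positivity) (hρ _), hpow]
    simp only [h1]
    rw [integral_const_mul, int_scale t ht (fun x => ρ x ^ (5/3 : ℝ))]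
    field_simp
  have hN : ∀ x y : R3, ‖t • x - t • y‖ = t * ‖x - y‖ := by
    intro x y
    rw [← smul_sub, norm_smul, Real.norm_of_nonneg ht.le]
  have hV : (∫ x, (∑ j, t ^ 3 * z j / ‖x - R j‖) * (t ^ 6 * ρ (t • x))) =
      t ^ 7 * ∫ x, (∑ j, z j / ‖x - t • R j‖) * ρ x := by
    have h1 : ∀ x : R3, (∑ j, t ^ 3 * z j / ‖x - R j‖) * (t ^ 6 * ρ (t • x)) =
        t ^ 10 * ((∑ j, z j / ‖t • x - t • R j‖) * ρ (t • x)) := by
      intro x
      have h2 : ∑ j, t ^ 3 * z j / ‖x - R j‖ = t ^ 4 * ∑ j, z j / ‖t • x - t • R j‖ := by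
        rw [Finset.mul_sum]
        refine Finset.sum_congr rfl fun j _ => ?_
        rw [hN, div_mul_eq_div_div, pow_succ t 3, mul_assoc, mul_div_assoc]
        congr 1
        rw [div_div, mul_comm t ‖x - R j‖, ← div_div]
        field_simp
      rw [h2]; ring
    simp only [h1]
    rw [integral_const_mul, int_scale t ht (fun x => (∑ j, z j / ‖x - t • R j‖) * ρ x)]
    field_simp
  have hD : (∫ x, ∫ y, t ^ 6 * ρ (t • x) * (t ^ 6 * ρ (t • y)) / ‖x - y‖) =
      t ^ 7 * ∫ x, ∫ y, ρ x * ρ y / ‖x - y‖ := by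
    have h1 : ∀ x : R3, (∫ y, t ^ 6 * ρ (t • x) * (t ^ 6 * ρ (t • y)) / ‖x - y‖) =
        t ^ 10 * ∫ y, ρ (t • x) * ρ y / ‖t • x - y‖ := by
      intro x
      have h2 : ∀ y : R3, t ^ 6 * ρ (t • x) * (t ^ 6 * ρ (t • y)) / ‖x - y‖ =
          t ^ 13 * (ρ (t • x) * ρ (t • y) / ‖t • x - t • y‖) := by
        intro y
        rw [hN]
        by_cases h : ‖x - y‖ = 0
        · rw [h]; simp
        · field_simp
      simp only [h2]
      rw [integral_const_mul, int_scale t ht (fun y => ρ (t • x) * ρ y / ‖t • x - y‖)]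
      field_simp
    simp only [h1]
    rw [integral_const_mul, int_scale t ht (fun x => ∫ y, ρ x * ρ y / ‖x - y‖)]
    field_simp
  have hU : rep (fun i => t ^ 3 * z i) R = t ^ 7 * rep z (fun i => t • R i) := by
    unfold rep
    have h1 : ∀ i j, t ^ 3 * z i * (t ^ 3 * z j) / ‖R i - R j‖ =
        t ^ 7 * (z i * z j / ‖t • R i - t • R j‖) := by
      intro i j
      rw [hN]
      by_cases h : ‖R i - R j‖ = 0
      · rw [h]; simp
      · field_simp
    simp only [h1, ← Finset.mul_sum]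
    ring
  rw [tf_eq, tf_eq, hK, hV, hD, hU]
  ring

lemma E_scale {ι : Type} [Fintype ι] [DecidableEq ι] (z : ι → ℝ) (R : ι → R3) {t : ℝ}
    (ht : 0 < t) : E 1 (fun i => t ^ 3 * z i) R = t ^ 7 * E 1 z (fun i => t • R i) := by
  have ht0 : t ≠ 0 := ht.ne'
  have hinv : ∀ x : R3, t • (t⁻¹ • x) = x := fun x => by rw [smul_smul, mul_inv_cancel₀ ht0, one_smul]
  have hinv' : ∀ x : R3, t⁻¹ • (t • x) = x := fun x => by
    rw [smul_smul, inv_mul_cancel₀ ht0, one_smul]
  have key : Pool.Agent.Results.MP_88afc7_mp.SeventhPower.energies 1 (fun i => t ^ 3 * z i) R =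
      t ^ 7 • Pool.Agent.Results.MP_88afc7_mp.SeventhPower.energies 1 z (fun i => t • R i) := by
    ext s
    rw [Set.mem_smul_set]
    constructor
    · rintro ⟨σ, ⟨h1, h2, h3⟩, h4, h5⟩
      set ρ : R3 → ℝ := fun x => (t ^ 6)⁻¹ * σ (t⁻¹ • x) with hρ
      have hσ : σ = fun x => t ^ 6 * ρ (t • x) := by
        funext x
        rw [hρ]
        simp only [hinv']
        field_simp
      have hn : ∀ x, 0 ≤ ρ x := fun x => mul_nonneg (by positivity) (h1 _)
      have hρi : Integrable ρ := (h2.comp_smul (inv_ne_zero ht0)).const_mul _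
      have hρi' : Integrable (fun x => ρ x ^ (5/3 : ℝ)) := by
        have := (h3.comp_smul (inv_ne_zero ht0)).const_mul (((t ^ 6)⁻¹ : ℝ) ^ (5/3 : ℝ))
        refine this.congr (ae_of_all _ fun x => ?_)
        show _ = ((t ^ 6)⁻¹ * σ (t⁻¹ • x)) ^ (5/3 : ℝ)
        rw [Real.mul_rpow (by positivity) (h1 _)]
      refine ⟨tf 1 z (fun i => t • R i) ρ, ⟨ρ, ⟨hn, hρi, hρi'⟩, ?_, rfl⟩, ?_⟩
      · rw [hσ, integral_const_mul, int_scale t ht ρ, ← Finset.mul_sum] at h4
        have h6 : t ^ 6 * ((t ^ 3)⁻¹ * ∫ x, ρ x) = t ^ 3 * ∫ x, ρ x := by field_simp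
        rw [h6] at h4
        exact mul_left_cancel₀ (by positivity) h4
      · rw [smul_eq_mul, ← tf_scale z R ht hn, ← hσ, h5]
    · rintro ⟨s', ⟨ρ, ⟨h1, h2, h3⟩, h4, rfl⟩, rfl⟩
      refine ⟨fun x => t ^ 6 * ρ (t • x), ⟨fun x => mul_nonneg (by positivity) (h1 _),
        (h2.comp_smul ht0).const_mul _, ?_⟩, ?_, ?_⟩
      · have := (h3.comp_smul ht0).const_mul ((t ^ 6 : ℝ) ^ (5/3 : ℝ))
        refine this.congr (ae_of_all _ fun x => ?_)
        show _ = (t ^ 6 * ρ (t • x)) ^ (5/3 : ℝ)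
        rw [Real.mul_rpow (by positivity) (h1 _)]
      · rw [integral_const_mul, int_scale t ht ρ, h4, ← Finset.mul_sum]
        field_simp
      · rw [tf_scale z R ht h1, smul_eq_mul]
  unfold E
  rw [key, Real.sInf_smul_of_nonneg (by positivity), smul_eq_mul]

lemma eat_scale (z : ℝ) {t : ℝ} (ht : 0 < t) : eat (t ^ 3 * z) = t ^ 7 * eat z := by
  unfold eat
  rw [e_eq, e_eq, E_scale (fun _ : Fin 1 => z) (fun _ => (0 : R3)) ht]
  simp

lemma f_scale {k : ℕ} (R : Fin k → R3) (z : Fin k → ℝ) {t : ℝ} (ht : 0 < t) :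
    f R (fun i => t ^ 3 * z i) = t ^ 7 * f (fun i => t • R i) z := by
  unfold f
  rw [e_eq, e_eq, E_scale z R ht]
  simp only [eat_scale _ ht]
  rw [← Finset.mul_sum]; ring

/-! ### The two sided bound along rays -/

/-- the atoms as molecules of `SeventhPower` -/
noncomputable def atom (z : ℝ) (hz : 0 < z) : Molecule where
  k := 1
  k_pos := one_pos
  z := fun _ => z
  z_pos := fun _ => hz
  R := fun _ => 0
  R_inj := Function.injective_of_subsingleton _

lemma deltaE_eq {n : ℕ} (z : Fin n → ℝ) (hz : ∀ i, 0 < z i) (R : Fin n → R3) (l : ℝ) :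
    deltaE 1 (fun i => atom (z i) (hz i)) R l = f (fun i => l • R i) z := by
  unfold deltaE f
  have h1 : ∀ i, E 1 (atom (z i) (hz i)).z (atom (z i) (hz i)).R = eat (z i) := by
    intro i
    unfold eat
    rw [e_eq]
    rfl
  rw [Finset.sum_congr rfl fun i _ => h1 i, e_eq]
  congr 1
  set M : Fin n → Molecule := fun i => atom (z i) (hz i) with hM
  have hg : Function.Injective (fun i : Fin n => (⟨i, (0 : Fin 1)⟩ : Σ m : Fin n, Fin (M m).k)) := by
    intro i j hij
    exact (Sigma.mk.inj hij).1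
  have h2 := E_emb (fun i : Fin n => (⟨i, (0 : Fin 1)⟩ : Σ m : Fin n, Fin (M m).k)) hg
    (combZ M) (combR M R l) (by
      rintro ⟨m, j⟩ hp
      exfalso
      refine hp ⟨m, ?_⟩
      have : j = (0 : Fin 1) := Subsingleton.elim (α := Fin 1) _ _
      rw [this])
  rw [← h2]
  congr 1
  funext i
  show (0 : R3) + l • R i = l • R i
  rw [zero_add]

/-- for positive charges -/
lemma bounds_pos {n : ℕ} (hn : 2 ≤ n) (R : Fin n → R3) (hR : Function.Injective R)
    (z : Fin n → ℝ) (hz : ∀ i, 0 < z i) :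
    ∃ c C l₀ : ℝ, 0 < c ∧ 0 < l₀ ∧ ∀ l, l₀ ≤ l →
      c ≤ f R (fun i => l ^ 3 * z i) ∧ f R (fun i => l ^ 3 * z i) ≤ C := by
  obtain ⟨-, -, c, C, l₀, hc, -, hl, h⟩ :=
    Pool.Agent.Results.MP_88afc7_mp.SeventhPower.result 1 one_pos n hn
      (fun i => atom (z i) (hz i)) R hR
  refine ⟨c, C, l₀, hc, hl, fun l hll => ?_⟩
  have hlp : 0 < l := hl.trans_le hll
  obtain ⟨h1, h2⟩ := h l hll
  rw [deltaE_eq, div_le_iff₀ (by positivity)] at h1
  rw [deltaE_eq, le_div_iff₀ (by positivity)] at h2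
  rw [f_scale R z hlp, mul_comm]
  exact ⟨h1, h2⟩

lemma eat_zero : eat 0 = 0 := by
  unfold eat
  rw [e_eq]
  unfold E
  have h : Pool.Agent.Results.MP_88afc7_mp.SeventhPower.energies 1 (fun _ : Fin 1 => (0:ℝ))
      (fun _ => (0 : R3)) = {0} := by
    ext s
    constructor
    · rintro ⟨ρ, ⟨h1, h2, h3⟩, h4, rfl⟩
      rw [mem_singleton_iff, tf_eq]
      have h5 : ρ =ᵐ[volume] 0 := by
        refine (integral_eq_zero_iff_of_nonneg h1 h2).1 ?_
        rw [h4]; simp
      have h6 : (∫ x, ρ x ^ (5/3 : ℝ)) = 0 := by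
        rw [← integral_zero R3 ℝ]
        refine integral_congr_ae ?_
        filter_upwards [h5] with x hx
        rw [hx]
        simp only [Pi.zero_apply]
        exact Real.zero_rpow (by norm_num)
      have h7 : (∫ x, ∫ y, ρ x * ρ y / ‖x - y‖) = 0 := by
        rw [← integral_zero R3 ℝ]
        refine integral_congr_ae ?_
        filter_upwards [h5] with x hx
        rw [hx]
        simp
      rw [h6, h7]
      unfold rep
      simp
    · rintro h
      rw [mem_singleton_iff] at h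
      subst h
      refine ⟨fun _ => 0, ⟨fun _ => le_rfl, integrable_zero _ _ _, ?_⟩, by simp, ?_⟩
      · have : (fun _ : R3 => (0:ℝ) ^ (5/3 : ℝ)) = fun _ => 0 := by
          funext x; exact Real.zero_rpow (by norm_num)
        rw [this]; exact integrable_zero _ _ _
      · rw [tf_eq]
        unfold rep
        have : (fun _ : R3 => (0:ℝ) ^ (5/3 : ℝ)) = fun _ => 0 := by
          funext x; exact Real.zero_rpow (by norm_num)
        rw [this]
        simp
  rw [h, csInf_singleton]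

/-- nuclei of charge zero may be dropped -/
lemma f_emb {k n : ℕ} (g : Fin n → Fin k) (hg : Function.Injective g) (z : Fin k → ℝ)
    (R : Fin k → R3) (hz : ∀ i, i ∉ Set.range g → z i = 0) : f (R ∘ g) (z ∘ g) = f R z := by
  unfold f
  rw [e_eq, e_eq, E_emb g hg z R hz]
  congr 1
  exact Fintype.sum_of_injective g hg _ _ (fun i hi => by rw [hz i hi, eat_zero]) (fun i => rfl)

/-- Along every ray with at least two positive charges `f` stays between two positive constants. -/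
lemma bounds {k : ℕ} (R : Fin k → R3) (hR : Function.Injective R) (z : Fin k → ℝ)
    (hz : ∀ i, 0 ≤ z i) {a b : Fin k} (hab : a ≠ b) (ha : 0 < z a) (hb : 0 < z b) :
    ∃ c C T : ℝ, 0 < c ∧ 0 < T ∧ ∀ t, T ≤ t →
      c ≤ f R (fun i => t * z i) ∧ f R (fun i => t * z i) ≤ C := by
  classical
  set P := {i : Fin k // 0 < z i} with hP
  set n := Fintype.card P with hn
  set φ : Fin n ≃ P := (Fintype.equivFin P).symm with hφ
  set g : Fin n → Fin k := fun i => (φ i).1 with hg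
  have hgi : Function.Injective g := fun i j hij => φ.injective (Subtype.ext hij)
  have hgr : ∀ i, i ∉ Set.range g → z i = 0 := by
    intro i hi
    by_contra hne
    have hpos : 0 < z i := lt_of_le_of_ne (hz i) (Ne.symm hne)
    exact hi ⟨φ.symm ⟨i, hpos⟩, by simp [hg]⟩
  have hn2 : 2 ≤ n := by
    have : 1 < Fintype.card P := Fintype.one_lt_card_iff.2
      ⟨⟨a, ha⟩, ⟨b, hb⟩, fun h => hab (Subtype.ext_iff.1 h)⟩
    omega
  obtain ⟨c, C, l₀, hc, hl, h⟩ := bounds_pos hn2 (R ∘ g) (hR.comp hgi) (z ∘ g) (fun i => (φ i).2)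
  refine ⟨c, C, max 1 (l₀ ^ 3), hc, by positivity, fun t ht => ?_⟩
  have ht1 : 1 ≤ t := (le_max_left _ _).trans ht
  have ht3 : l₀ ^ 3 ≤ t := (le_max_right _ _).trans ht
  have ht0 : 0 ≤ t := by linarith
  set l : ℝ := t ^ (1/3 : ℝ) with hldef
  have hl3 : l ^ 3 = t := by
    rw [hldef, ← Real.rpow_natCast, ← Real.rpow_mul ht0]; norm_num
  have hll : l₀ ≤ l := by
    by_contra hcon
    push Not at hcon
    have h1 : l ^ 3 < l₀ ^ 3 := pow_lt_pow_left₀ hcon (by positivity) (by norm_num)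
    rw [hl3] at h1; linarith
  have h2 := h l hll
  have h3 : (fun i => l ^ 3 * (z ∘ g) i) = (fun i => t * z i) ∘ g := by
    funext i; rw [hl3]; rfl
  rw [h3, f_emb g hgi (fun i => t * z i) R (fun i hi => by
    show t * z i = 0
    rw [hgr i hi, mul_zero])] at h2
  exact h2

/-! ### Doubling -/

/-- superadditivity fails on every ray, at arbitrarily large charges -/
lemma doubling {k : ℕ} (R : Fin k → R3) (hR : Function.Injective R) (z : Fin k → ℝ)
    (hz : ∀ i, 0 ≤ z i) {a b : Fin k} (hab : a ≠ b) (ha : 0 < z a) (hb : 0 < z b) (T : ℝ) :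
    ∃ t : ℝ, T ≤ t ∧ 0 < t ∧ f R (t • z + t • z) < f R (t • z) + f R (t • z) := by
  obtain ⟨c, C, T', hc, hT', h⟩ := bounds R hR z hz hab ha hb
  by_contra hcon
  push Not at hcon
  set t₀ : ℝ := max T T' with ht₀
  have ht₀p : 0 < t₀ := hT'.trans_le (le_max_right _ _)
  have hge : ∀ m : ℕ, t₀ ≤ 2 ^ m * t₀ := fun m =>
    le_mul_of_one_le_left ht₀p.le (one_le_pow₀ (by norm_num))
  have hgrow : ∀ m : ℕ, 2 ^ m * c ≤ f R (fun i => (2 ^ m * t₀) * z i) := by
    intro m
    induction m with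
    | zero =>
      have := (h t₀ (le_max_right _ _)).1
      simpa using this
    | succ m ih =>
      have h1 := hcon (2 ^ m * t₀) ((le_max_left _ _).trans (hge m)) (by positivity)
      have h2 : ((2 ^ m * t₀) • z + (2 ^ m * t₀) • z) = fun i => (2 ^ (m + 1) * t₀) * z i := by
        funext i
        simp only [Pi.add_apply, Pi.smul_apply, smul_eq_mul]
        ring
      have h3 : (2 ^ m * t₀) • z = fun i => (2 ^ m * t₀) * z i := by
        funext i; simp only [Pi.smul_apply, smul_eq_mul]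
      rw [h2, h3] at h1
      have h4 : (2:ℝ) ^ (m + 1) * c = 2 * (2 ^ m * c) := by rw [pow_succ]; ring
      rw [h4]
      linarith
  obtain ⟨m, hm⟩ := pow_unbounded_of_one_lt (C / c) (show (1:ℝ) < 2 by norm_num)
  rw [div_lt_iff₀ hc] at hm
  have h1 := hgrow m
  have h2 := (h (2 ^ m * t₀) ((le_max_right _ _).trans (hge m))).2
  linarith

/-! ### One nucleus -/

lemma e_one (R : Fin 1 → R3) (z : Fin 1 → ℝ) : e R z = eat (z 0) := by
  unfold eat
  have hz : (fun _ => z 0) = z := by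
    funext i
    rw [Subsingleton.elim i 0]
  rw [hz]
  unfold e
  congr 1
  have hx : ∀ (R' R'' : Fin 1 → R3) (ρ : R3 → ℝ), xi R'' z (fun x => ρ (x + (R' 0 - R'' 0))) =
      xi R' z ρ := by
    intro R' R'' ρ
    set v := R' 0 - R'' 0 with hv
    have hU0 : ∀ Q : Fin 1 → R3, U Q z = 0 := by
      intro Q
      unfold U
      refine Finset.sum_eq_zero fun i _ => Finset.sum_eq_zero fun j hj => ?_
      rw [Finset.mem_filter] at hj
      exact absurd (Subsingleton.elim i j) hj.2.ne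
    unfold xi V
    rw [hU0, hU0]
    have h1 : (∫ x, ρ (x + v) ^ (5/3 : ℝ)) = ∫ x, ρ x ^ (5/3 : ℝ) :=
      integral_add_right_eq_self (fun x => ρ x ^ (5/3 : ℝ)) v
    have h2 : (∫ x, (∑ j, z j / ‖x - R'' j‖) * ρ (x + v)) =
        ∫ x, (∑ j, z j / ‖x - R' j‖) * ρ x := by
      rw [← integral_add_right_eq_self (fun x => (∑ j, z j / ‖x - R' j‖) * ρ x) v]
      congr 1
      funext x
      congr 1
      refine Finset.sum_congr rfl fun j _ => ?_
      rw [Subsingleton.elim j 0, hv]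
      congr 2
      abel
    have h3 : (∫ x, ∫ y, ρ (x + v) * ρ (y + v) / ‖x - y‖) = ∫ x, ∫ y, ρ x * ρ y / ‖x - y‖ := by
      rw [← integral_add_right_eq_self (fun x => ∫ y, ρ x * ρ y / ‖x - y‖) v]
      congr 1
      funext x
      rw [← integral_add_right_eq_self (fun y => ρ (x + v) * ρ y / ‖x + v - y‖) v]
      congr 1
      funext y
      congr 2
      abel
    rw [h1, h2, h3]
  have hd : ∀ (ρ : R3 → ℝ) (v : R3), Density ρ → Density (fun x => ρ (x + v)) := fun ρ v h =>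
    ⟨fun x => h.nonneg _, h.integrable.comp_add_right v, h.integrable_rpow.comp_add_right v⟩
  ext s
  constructor
  · rintro ⟨ρ, h1, h2, h3⟩
    refine ⟨fun x => ρ (x + (R 0 - (fun _ : Fin 1 => (0 : R3)) 0)), hd _ _ h1, ?_, ?_⟩
    · rw [integral_add_right_eq_self]; exact h2
    · exact (hx R (fun _ => 0) ρ).trans h3
  · rintro ⟨ρ, h1, h2, h3⟩
    refine ⟨fun x => ρ (x + ((fun _ : Fin 1 => (0 : R3)) 0 - R 0)), hd _ _ h1, ?_, ?_⟩
    · rw [integral_add_right_eq_self]; exact h2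
    · exact (hx (fun _ => 0) R ρ).trans h3

lemma f_one (R : Fin 1 → R3) (z : Fin 1 → ℝ) : f R z = 0 := by
  unfold f
  rw [e_one]
  simp

open Pool.Agent.TH791.Cl Pool.Agent.R999.MinP Pool.Agent.R999.Ex in
/-- **The function `e - ẽ` is not superadditive.**

(1) For all nuclear charges `z_j ≥ 0` and all positions the energy `e(z)` is an attained minimum.

(2) For every `k`, all distinct positions `R_1, …, R_k` and every `z ∈ ℝ₊ᵏ` with at least two
positive components there are arbitrarily large `t` for which superadditivity fails at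
`z₁ = z₂ = t z`.

(3) For `k ≥ 1` and distinct positions, `e - ẽ` is superadditive on `ℝ₊ᵏ` if and only if `k = 1`.

(4) In particular the answer to the question is negative. -/
theorem result :
    (∀ (k : ℕ) (R : Fin k → R3) (z : Fin k → ℝ), (∀ i, 0 ≤ z i) →
      IsLeast (energies R z) (e R z)) ∧
    (∀ (k : ℕ) (R : Fin k → R3), Function.Injective R → ∀ z : Fin k → ℝ, (∀ i, 0 ≤ z i) →
      (∃ a b, a ≠ b ∧ 0 < z a ∧ 0 < z b) → ∀ T : ℝ, ∃ t : ℝ, T ≤ t ∧ 0 < t ∧
        f R (t • z + t • z) < f R (t • z) + f R (t • z)) ∧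
    (∀ (k : ℕ) (R : Fin k → R3), 1 ≤ k → Function.Injective R →
      (Superadditive (f R) ↔ k = 1)) ∧
    ¬ (∀ (k : ℕ) (R : Fin k → R3), 1 ≤ k → Function.Injective R → Superadditive (f R)) := by
  have h3 : ∀ (k : ℕ) (R : Fin k → R3), 1 ≤ k → Function.Injective R →
      (Superadditive (f R) ↔ k = 1) := by
    intro k R hk hR
    constructor
    · intro hS
      by_contra hne
      have h2 : 2 ≤ k := by omega
      obtain ⟨t, -, ht, h⟩ := doubling R hR (fun _ => 1) (fun _ => zero_le_one)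
        (a := ⟨0, by omega⟩) (b := ⟨1, by omega⟩) (by simp) one_pos one_pos 0
      have hn : ∀ i, 0 ≤ (t • (fun _ : Fin k => (1:ℝ))) i := fun i => by
        simp only [Pi.smul_apply, smul_eq_mul]; linarith
      have := hS _ _ hn hn
      linarith
    · intro h1
      subst h1
      intro z₁ z₂ _ _
      simp only [f_one]
      norm_num
  refine ⟨?_, ?_, h3, ?_⟩
  · intro k R z hz
    obtain ⟨ρ, hρ⟩ := tf_ex one_pos hz R
    have h1 := Pool.Agent.Results.MP_88afc7_mp.SeventhPower.least_FE one_pos hρ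
    rw [energies_eq, e_eq, Pool.Agent.Results.MP_88afc7_mp.SeventhPower.E_eq one_pos hρ]
    exact h1
  · rintro k R hR z hz ⟨a, b, hab, ha, hb⟩ T
    exact doubling R hR z hz hab ha hb T
  · intro h
    obtain ⟨v, hv⟩ := exists_norm_eq R3 (zero_le_one (α := ℝ))
    have hinj : Function.Injective (![0, v] : Fin 2 → R3) := by
      have hv0 : v ≠ 0 := by
        intro h0; rw [h0, norm_zero] at hv; exact zero_ne_one hv
      intro i j hij
      fin_cases i <;> fin_cases j <;> simp_all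
    have := (h3 2 _ (by norm_num) hinj).1 (h 2 _ (by norm_num) hinj)
    omega

end Pool.Agent.Results.MP_f156ce_mp.FullAnswer
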